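import Mathlib
import Pool.Agent.Q11.HopfEight

set_option autoImplicit false
set_option linter.unusedSimpArgs false

namespace Pool.Agent.Results.MP_16410b_al.DoiNotMatchedPair

open TensorProduct Coalgebra

universe u v w

section cocycles

variable {k : Type u} [Field k] {H : Type v} [Ring H] [HopfAlgebra k H]

/-- `τ` is the convolution inverse of `σ : H ⊗ H → k`. -/
def IsConvInverse (σ τ : H ⊗[k] H →ₗ[k] k) : Prop :=
  ∀ t : H ⊗[k] H, LinearMap.mul' k k (TensorProduct.map σ τ (comul (R := k) t)) =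
      counit (R := k) t ∧
    LinearMap.mul' k k (TensorProduct.map τ σ (comul (R := k) t)) = counit (R := k) t

/-- `σ(h₁, g₁) σ(h₂ g₂, l)` -/
noncomputable def cocycleLeft (σ : H ⊗[k] H →ₗ[k] k) (h g l : H) : k :=
  LinearMap.mul' k k (TensorProduct.map σ
    (σ ∘ₗ (TensorProduct.mk k H H).flip l ∘ₗ LinearMap.mul' k H) (comul (R := k) (h ⊗ₜ[k] g)))

/-- `σ(g₁, l₁) σ(h, g₂ l₂)` -/
noncomputable def cocycleRight (σ : H ⊗[k] H →ₗ[k] k) (h g l : H) : k :=
  LinearMap.mul' k k (TensorProduct.map σ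
    (σ ∘ₗ TensorProduct.mk k H H h ∘ₗ LinearMap.mul' k H) (comul (R := k) (g ⊗ₜ[k] l)))

/-- `σ`, with convolution inverse `τ`, is a normalized Sweedler cocycle. -/
def IsNormalizedCocycle (σ τ : H ⊗[k] H →ₗ[k] k) : Prop :=
  IsConvInverse σ τ ∧ (∀ h g l : H, cocycleLeft σ h g l = cocycleRight σ h g l) ∧
    ∀ h : H, σ (h ⊗ₜ 1) = counit (R := k) h ∧ σ (1 ⊗ₜ h) = counit (R := k) h

/-- The multiplication of the Doi deformation, `h ⊗ g ↦ σ(h₁, g₁) h₂ g₂ τ(h₃, g₃)` with
`τ = σ⁻¹`. -/
noncomputable def doiMul (σ τ : H ⊗[k] H →ₗ[k] k) : H ⊗[k] H →ₗ[k] H :=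
  (TensorProduct.lid k H).toLinearMap ∘ₗ
    TensorProduct.map σ ((TensorProduct.rid k H).toLinearMap ∘ₗ
      TensorProduct.map (LinearMap.mul' k H) τ ∘ₗ comul) ∘ₗ comul

/-- `m : C ⊗ C → C` and `e` turn the coalgebra `C` into a Hopf algebra. -/
def IsHopfProduct {C : Type v} [AddCommGroup C] [Module k C] [Coalgebra k C]
    (m : C ⊗[k] C →ₗ[k] C) (e : C) : Prop :=
  (∀ x y z, m (m (x ⊗ₜ y) ⊗ₜ z) = m (x ⊗ₜ m (y ⊗ₜ z))) ∧
  (∀ x, m (e ⊗ₜ x) = x ∧ m (x ⊗ₜ e) = x) ∧
  (∀ t, comul (R := k) (m t) = TensorProduct.map m m (comul (R := k) t)) ∧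
  (∀ t, counit (R := k) (m t) = counit (R := k) t) ∧
  comul (R := k) e = e ⊗ₜ[k] e ∧ counit (R := k) e = 1 ∧
  ∃ S : C →ₗ[k] C, ∀ x,
    m (TensorProduct.map S LinearMap.id (comul (R := k) x)) = counit (R := k) x • e ∧
    m (TensorProduct.map LinearMap.id S (comul (R := k) x)) = counit (R := k) x • e

end cocycles

/-- A matched pair `(A, H, ◁, ▷)`: coalgebra maps `ract = ◁ : H ⊗ A → H`,
`lact = ▷ : H ⊗ A → A` with the unit conditions, such that `A ⊗ H` is a Hopf algebra with the
product `(a ⋈ h)(c ⋈ g) = a (h₁ ▷ c₁) ⋈ (h₂ ◁ c₂) g`, the unit `1 ⋈ 1` and the tensor product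
coalgebra structure. -/
structure MatchedPair (k : Type u) [Field k] (A : Type w) [Ring A] [HopfAlgebra k A]
    (H : Type v) [Ring H] [HopfAlgebra k H] where
  /-- `◁` -/
  ract : H ⊗[k] A →ₗc[k] H
  /-- `▷` -/
  lact : H ⊗[k] A →ₗc[k] A
  lact_one : ∀ h : H, lact (h ⊗ₜ 1) = counit (R := k) h • (1 : A)
  one_lact : ∀ a : A, lact (1 ⊗ₜ a) = a
  one_ract : ∀ a : A, ract (1 ⊗ₜ a) = counit (R := k) a • (1 : H)
  ract_one : ∀ h : H, ract (h ⊗ₜ 1) = h
  /-- the product of the bicrossed product -/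
  mul : (A ⊗[k] H) ⊗[k] (A ⊗[k] H) →ₗ[k] A ⊗[k] H
  mul_apply : ∀ (a c : A) (h g : H), mul ((a ⊗ₜ h) ⊗ₜ (c ⊗ₜ g)) =
    TensorProduct.map (LinearMap.mulLeft k a) (LinearMap.mulRight k g)
      (TensorProduct.map lact.toLinearMap ract.toLinearMap (comul (R := k) (h ⊗ₜ[k] c)))
  isHopf : IsHopfProduct mul ((1 : A) ⊗ₜ (1 : H))

section deformation

variable {k : Type u} [Field k] {A : Type w} [Ring A] [HopfAlgebra k A]
  {H : Type v} [Ring H] [HopfAlgebra k H]

/-- The multiplication `h • g = (h ◁ r(g₁)) g₂`. -/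
noncomputable def rMul (M : MatchedPair k A H) (r : H →ₗc[k] A) : H ⊗[k] H →ₗ[k] H :=
  LinearMap.mul' k H ∘ₗ
    TensorProduct.map (M.ract.toLinearMap ∘ₗ TensorProduct.map LinearMap.id r.toLinearMap)
      LinearMap.id ∘ₗ
    (TensorProduct.assoc k H H H).symm.toLinearMap ∘ₗ
    TensorProduct.map LinearMap.id comul

/-- `r : H → A` is a deformation map of the matched pair: a unitary, cocentral coalgebra map with
`r((h ◁ r(g₁)) g₂) = r(h₁) (h₂ ▷ r(g))`. -/
def IsDeformationMap (M : MatchedPair k A H) (r : H →ₗc[k] A) : Prop :=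
  r 1 = 1 ∧
  (∀ h : H, TensorProduct.map r.toLinearMap LinearMap.id (comul (R := k) h) =
    TensorProduct.map r.toLinearMap LinearMap.id
      (TensorProduct.comm k H H (comul (R := k) h))) ∧
  ∀ h g : H, r (rMul M r (h ⊗ₜ g)) =
    LinearMap.mul' k A (TensorProduct.map r.toLinearMap
      (M.lact.toLinearMap ∘ₗ (TensorProduct.mk k H A).flip (r g)) (comul (R := k) h))

end deformation

/-- The multiplications `m` and `m'` on `H` are isomorphic. -/
def IsoMul {k : Type u} [Field k] {H : Type v} [AddCommGroup H] [Module k H]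
    (m m' : H ⊗[k] H →ₗ[k] H) : Prop :=
  ∃ f : H ≃ₗ[k] H, ∀ a b : H, f (m (a ⊗ₜ b)) = m' (f a ⊗ₜ f b)

/-- No matched pair and deformation map give an algebra `H_r` isomorphic to `H_σ`. -/
def NoMatchedPair {k : Type u} [Field k] {H : Type v} [Ring H] [HopfAlgebra k H]
    (σ τ : H ⊗[k] H →ₗ[k] k) : Prop :=
  ∀ (A : Type w) [Ring A] [HopfAlgebra k A] (M : MatchedPair k A H) (r : H →ₗc[k] A),
    IsDeformationMap M r → ¬ IsoMul (doiMul σ τ) (rMul M r)

section proofs

open Q11.HopfEight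

variable (k : Type u) [Field k]

lemma convInverse (c : k) : IsConvInverse (sig k c) (sig k (-c)) := by
  have h : ∀ c : k, LinearMap.mul' k k ∘ₗ TensorProduct.map (sig k c) (sig k (-c)) ∘ₗ
      comul = counit := by
    intro c
    apply bilin_ext
    · intro i j
      simp [-TensorProduct.comul_tmul, comul_TT, sig_TT, counit_eq, cou_T]
    · intro i j
      simp [-TensorProduct.comul_tmul, comul_TU, sig_TT, sig_TU, counit_eq, cou_T, cou_U]
    · intro i j
      simp [-TensorProduct.comul_tmul, comul_UT, sig_TT, sig_UT, counit_eq, cou_T, cou_U]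
    · intro i j
      simp [-TensorProduct.comul_tmul, comul_UU, sig_TT, sig_TU, sig_UT, sig_UU, counit_eq,
        cou_T, cou_U]
  intro t
  refine ⟨LinearMap.congr_fun (h c) t, ?_⟩
  have h' := h (-c)
  rw [neg_neg] at h'
  exact LinearMap.congr_fun h' t

section linearity

variable {k} {H : Type v} [Ring H] [HopfAlgebra k H] (σ : H ⊗[k] H →ₗ[k] k)

lemma cl_add1 (h h' g l : H) : cocycleLeft σ (h + h') g l =
    cocycleLeft σ h g l + cocycleLeft σ h' g l := by
  simp only [cocycleLeft, add_tmul, map_add]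
lemma cl_add2 (h g g' l : H) : cocycleLeft σ h (g + g') l =
    cocycleLeft σ h g l + cocycleLeft σ h g' l := by
  simp only [cocycleLeft, tmul_add, map_add]
lemma cl_add3 (h g l l' : H) : cocycleLeft σ h g (l + l') =
    cocycleLeft σ h g l + cocycleLeft σ h g l' := by
  simp only [cocycleLeft, map_add, LinearMap.add_comp, LinearMap.comp_add,
    TensorProduct.map_add_right, LinearMap.add_apply]
lemma cl_smul1 (c : k) (h g l : H) : cocycleLeft σ (c • h) g l = c • cocycleLeft σ h g l := by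
  simp only [cocycleLeft, ← TensorProduct.smul_tmul', map_smul]
lemma cl_smul2 (c : k) (h g l : H) : cocycleLeft σ h (c • g) l = c • cocycleLeft σ h g l := by
  simp only [cocycleLeft, tmul_smul, map_smul]
lemma cl_smul3 (c : k) (h g l : H) : cocycleLeft σ h g (c • l) = c • cocycleLeft σ h g l := by
  simp only [cocycleLeft, map_smul, LinearMap.smul_comp, LinearMap.comp_smul,
    TensorProduct.map_smul_right, LinearMap.smul_apply]
lemma cr_add1 (h h' g l : H) : cocycleRight σ (h + h') g l =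
    cocycleRight σ h g l + cocycleRight σ h' g l := by
  simp only [cocycleRight, map_add, LinearMap.add_comp, LinearMap.comp_add,
    TensorProduct.map_add_right, LinearMap.add_apply]
lemma cr_add2 (h g g' l : H) : cocycleRight σ h (g + g') l =
    cocycleRight σ h g l + cocycleRight σ h g' l := by
  simp only [cocycleRight, add_tmul, map_add]
lemma cr_add3 (h g l l' : H) : cocycleRight σ h g (l + l') =
    cocycleRight σ h g l + cocycleRight σ h g l' := by
  simp only [cocycleRight, tmul_add, map_add]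
lemma cr_smul1 (c : k) (h g l : H) : cocycleRight σ (c • h) g l = c • cocycleRight σ h g l := by
  simp only [cocycleRight, map_smul, LinearMap.smul_comp, LinearMap.comp_smul,
    TensorProduct.map_smul_right, LinearMap.smul_apply]
lemma cr_smul2 (c : k) (h g l : H) : cocycleRight σ h (c • g) l = c • cocycleRight σ h g l := by
  simp only [cocycleRight, ← TensorProduct.smul_tmul', map_smul]
lemma cr_smul3 (c : k) (h g l : H) : cocycleRight σ h g (c • l) = c • cocycleRight σ h g l := by
  simp only [cocycleRight, tmul_smul, map_smul]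

lemma cl_zero1 (g l : H) : cocycleLeft σ 0 g l = 0 := by
  have := cl_smul1 σ (0 : k) 0 g l
  simpa using this
lemma cl_zero2 (h l : H) : cocycleLeft σ h 0 l = 0 := by
  have := cl_smul2 σ (0 : k) h 0 l
  simpa using this
lemma cl_zero3 (h g : H) : cocycleLeft σ h g 0 = 0 := by
  have := cl_smul3 σ (0 : k) h g 0
  simpa using this
lemma cr_zero1 (g l : H) : cocycleRight σ 0 g l = 0 := by
  have := cr_smul1 σ (0 : k) 0 g l
  simpa using this
lemma cr_zero2 (h l : H) : cocycleRight σ h 0 l = 0 := by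
  have := cr_smul2 σ (0 : k) h 0 l
  simpa using this
lemma cr_zero3 (h g : H) : cocycleRight σ h g 0 = 0 := by
  have := cr_smul3 σ (0 : k) h g 0
  simpa using this

end linearity

lemma cocycle_basis (c : k) :
    (∀ i j l, cocycleLeft (sig k c) (T i) (T j) (T l) = cocycleRight (sig k c) (T i) (T j) (T l)) ∧
    (∀ i j l, cocycleLeft (sig k c) (T i) (T j) (U l) = cocycleRight (sig k c) (T i) (T j) (U l)) ∧
    (∀ i j l, cocycleLeft (sig k c) (T i) (U j) (T l) = cocycleRight (sig k c) (T i) (U j) (T l)) ∧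
    (∀ i j l, cocycleLeft (sig k c) (T i) (U j) (U l) = cocycleRight (sig k c) (T i) (U j) (U l)) ∧
    (∀ i j l, cocycleLeft (sig k c) (U i) (T j) (T l) = cocycleRight (sig k c) (U i) (T j) (T l)) ∧
    (∀ i j l, cocycleLeft (sig k c) (U i) (T j) (U l) = cocycleRight (sig k c) (U i) (T j) (U l)) ∧
    (∀ i j l, cocycleLeft (sig k c) (U i) (U j) (T l) = cocycleRight (sig k c) (U i) (U j) (T l)) ∧
    (∀ i j l, cocycleLeft (sig k c) (U i) (U j) (U l) =
      cocycleRight (sig k c) (U i) (U j) (U l)) := by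
  refine ⟨?_, ?_, ?_, ?_, ?_, ?_, ?_, ?_⟩ <;> intro i j l <;>
  simp only [cocycleLeft, cocycleRight, comul_TT, comul_TU, comul_UT, comul_UU, map_add,
    TensorProduct.map_tmul, LinearMap.comp_apply, LinearMap.mul'_apply, TensorProduct.mk_apply,
    LinearMap.flip_apply, T_mul_T, T_mul_U, U_mul_T, U_mul_U, sig_TT, sig_TU, sig_UT, sig_UU,
    ← TensorProduct.smul_tmul', TensorProduct.tmul_smul, map_smul, smul_eq_mul, mul_zero, zero_mul,
    mul_one, one_mul, add_zero, zero_add, TensorProduct.zero_tmul, TensorProduct.tmul_zero,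
    map_zero, s_add]
  · ring
  · have := s_mul_self k l
    linear_combination (-(c * s k j)) * this

lemma cocycle (c : k) (h g l : H k) :
    cocycleLeft (sig k c) h g l = cocycleRight (sig k c) h g l := by
  obtain ⟨b1, b2, b3, b4, b5, b6, b7, b8⟩ := cocycle_basis k c
  have hl : ∀ h g : H k, (∀ l, cocycleLeft (sig k c) h g (T l) = cocycleRight (sig k c) h g (T l))
      → (∀ l, cocycleLeft (sig k c) h g (U l) = cocycleRight (sig k c) h g (U l)) →
      ∀ l, cocycleLeft (sig k c) h g l = cocycleRight (sig k c) h g l := by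
    intro h g hT hU l
    induction l using ind with
    | h0 => rw [cl_zero3, cr_zero3]
    | hadd a b ha hb => rw [cl_add3, cr_add3, ha, hb]
    | hsmul t a ha => rw [cl_smul3, cr_smul3, ha]
    | hT i => exact hT i
    | hU i => exact hU i
  have hg : ∀ h : H k, (∀ j l, cocycleLeft (sig k c) h (T j) l = cocycleRight (sig k c) h (T j) l)
      → (∀ j l, cocycleLeft (sig k c) h (U j) l = cocycleRight (sig k c) h (U j) l) →
      ∀ g l, cocycleLeft (sig k c) h g l = cocycleRight (sig k c) h g l := by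
    intro h hT hU g l
    induction g using ind with
    | h0 => rw [cl_zero2, cr_zero2]
    | hadd a b ha hb => rw [cl_add2, cr_add2, ha, hb]
    | hsmul t a ha => rw [cl_smul2, cr_smul2, ha]
    | hT i => exact hT i l
    | hU i => exact hU i l
  induction h using ind with
  | h0 => rw [cl_zero1, cr_zero1]
  | hadd a b ha hb => rw [cl_add1, cr_add1, ha, hb]
  | hsmul t a ha => rw [cl_smul1, cr_smul1, ha]
  | hT i =>
    exact hg _ (fun j => hl _ _ (b1 i j) (b2 i j)) (fun j => hl _ _ (b3 i j) (b4 i j)) g l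
  | hU i =>
    exact hg _ (fun j => hl _ _ (b5 i j) (b6 i j)) (fun j => hl _ _ (b7 i j) (b8 i j)) g l

lemma normalized (c : k) (h : H k) : sig k c (h ⊗ₜ 1) = counit (R := k) h ∧
    sig k c (1 ⊗ₜ h) = counit (R := k) h := by
  induction h using ind with
  | h0 => simp
  | hadd a b ha hb =>
    constructor
    · rw [add_tmul, map_add, ha.1, hb.1, map_add]
    · rw [tmul_add, map_add, ha.2, hb.2, map_add]
  | hsmul t a ha =>
    constructor
    · rw [← smul_tmul', map_smul, ha.1, map_smul]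
    · rw [tmul_smul, map_smul, ha.2, map_smul]
  | hT i =>
    rw [← T_zero, sig_TT, sig_TT, counit_eq, cou_T]; simp
  | hU i =>
    rw [← T_zero, sig_UT, sig_TU, counit_eq, cou_U]; simp

lemma doi_TU (c : k) (i j : ZMod 4) :
    doiMul (sig k c) (sig k (-c)) (T i ⊗ₜ U j) = U (i + j) := by
  simp [-TensorProduct.comul_tmul, doiMul, comul_TU, comul_TT, sig_TT, sig_TU, T_mul_U, T_mul_T]

lemma doi_UT (c : k) (i j : ZMod 4) :
    doiMul (sig k c) (sig k (-c)) (U i ⊗ₜ T j) = s k j • U (i + j) := by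
  simp [-TensorProduct.comul_tmul, doiMul, comul_UT, comul_TT, sig_TT, sig_UT, U_mul_T, T_mul_T]

lemma doi_UU (c : k) (i j : ZMod 4) :
    doiMul (sig k c) (sig k (-c)) (U i ⊗ₜ U j) =
      (c * s k j) • T (i + j) - (c * s k j) • T (i + 1 + (j + 1)) := by
  simp [-TensorProduct.comul_tmul, doiMul, comul_UT, comul_TU, comul_UU, comul_TT, sig_TT, sig_UT,
    sig_TU, sig_UU, T_mul_T, U_mul_U, sub_eq_add_neg]

lemma main (h2 : (2 : k) ≠ 0) :
    ∃ (H : Type u) (_ : Ring H) (_ : HopfAlgebra k H) (σ τ : H ⊗[k] H →ₗ[k] k),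
      Module.finrank k H = 8 ∧ IsNormalizedCocycle σ τ ∧ NoMatchedPair.{u, u, w} σ τ := by
  refine ⟨H k, inferInstance, inferInstance, sig k 1, sig k (-1), finrankH k,
    ⟨convInverse k 1, cocycle k 1, normalized k 1⟩, ?_⟩
  intro A _ _ M r hr hiso
  have hr1 : ∀ h : H k, r h = counit (R := k) h • (1 : A) := by
    intro h
    have h3 := cocentral_trivial k r.toLinearMap hr.2.1 h
    have h4 : r.toLinearMap 1 = (1 : A) := hr.1
    rw [h4] at h3
    exact h3
  have hmul : ∀ h g : H k, rMul M r (h ⊗ₜ g) = h * g := by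
    intro h g
    have e : (M.ract.toLinearMap ∘ₗ TensorProduct.map LinearMap.id r.toLinearMap) =
        (TensorProduct.rid k (H k)).toLinearMap ∘ₗ TensorProduct.map LinearMap.id counit := by
      apply TensorProduct.ext'
      intro a b
      show M.ract (a ⊗ₜ r b) = _
      rw [hr1, tmul_smul, map_smul, M.ract_one]
      simp
    have e2 : rMul M r (h ⊗ₜ g) = LinearMap.mul' k (H k) (TensorProduct.map
        (M.ract.toLinearMap ∘ₗ TensorProduct.map LinearMap.id r.toLinearMap) LinearMap.id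
        ((TensorProduct.assoc k (H k) (H k) (H k)).symm (h ⊗ₜ[k] comul g))) := by
      simp [rMul]
    rw [e2, e]
    have e3 : ∀ t : H k ⊗[k] H k, LinearMap.mul' k (H k) (TensorProduct.map
        ((TensorProduct.rid k (H k)).toLinearMap ∘ₗ TensorProduct.map LinearMap.id counit)
        LinearMap.id ((TensorProduct.assoc k (H k) (H k) (H k)).symm (h ⊗ₜ[k] t))) =
        h * TensorProduct.lid k (H k) (LinearMap.rTensor (H k) counit t) := by
      intro t
      induction t using TensorProduct.induction_on with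
      | zero => simp
      | tmul a b => simp
      | add a b ha hb => rw [tmul_add, map_add, map_add, map_add, ha, hb, map_add, map_add,
          mul_add]
    rw [e3, Coalgebra.rTensor_counit_comul]
    simp
  obtain ⟨f, hf⟩ := hiso
  have hT : f (doiMul (sig k 1) (sig k (-1)) (T 1 ⊗ₜ U 0)) = f (T 1) * f (U 0) := by
    rw [hf, hmul]
  have hU : f (doiMul (sig k 1) (sig k (-1)) (U 0 ⊗ₜ T 1)) = f (U 0) * f (T 1) := by
    rw [hf, hmul]
  rw [doi_TU] at hT
  rw [doi_UT, s_one] at hU
  have hC : f ((2 : k) • U 1) = f (T 1) * f (U 0) - f (U 0) * f (T 1) := by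
    rw [← hT, ← hU, ← map_sub]
    congr 1
    rw [add_zero, zero_add]
    module
  have hsq : f (doiMul (sig k 1) (sig k (-1)) (((2 : k) • U 1) ⊗ₜ ((2 : k) • U 1))) = 0 := by
    rw [hf, hmul, hC]
    exact comm_sq k _ _
  have hz := f.map_eq_zero_iff.1 hsq
  rw [tmul_smul, map_smul, ← smul_tmul', map_smul, doi_UU, s_one] at hz
  have hz1 := congrArg (mkLin k (Pi.single (1 + 1) (1 : k)) (fun _ => 0)) hz
  have hne : (1 : ZMod 4) + 1 + (1 + 1) ≠ 1 + 1 := by decide
  simp only [map_smul, map_sub, mkLin_T, Pi.single_eq_same, Pi.single_eq_of_ne hne, map_zero,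
    smul_eq_mul, mul_one, mul_zero, sub_zero, one_mul] at hz1
  have h4 : (2 : k) * (2 * -1) ≠ 0 :=
    mul_ne_zero h2 (mul_ne_zero h2 (neg_ne_zero.2 one_ne_zero))
  exact h4 hz1

end proofs

/-- Over every field of characteristic not `2` there is a Hopf algebra `H` of dimension `8` with a
normalized Sweedler cocycle `σ` such that for every Hopf algebra `A`, every matched pair
`(A, H, ◁, ▷)` and every deformation map `r` the algebras `H_σ` and `H_r` are not even
isomorphic; in particular `H_σ ≠ H_r`. -/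
theorem result (k : Type u) [Field k] (h2 : (2 : k) ≠ 0) :
    ∃ (H : Type u) (_ : Ring H) (_ : HopfAlgebra k H) (σ τ : H ⊗[k] H →ₗ[k] k),
      Module.finrank k H = 8 ∧ IsNormalizedCocycle σ τ ∧ NoMatchedPair.{u, u, w} σ τ :=
  main k h2

end Pool.Agent.Results.MP_16410b_al.DoiNotMatchedPair
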